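import Mathlib
import Pool.Agent.U635.LIe

set_option autoImplicit false

/-!
# How much independence does the uniform prime number theorem in short intervals need?

Random sets `A = {n : E n occurs}` for events `E n` of probability `1 / log n`.

* If, for all large `n`, any at most `k n` of the events with indices in `(n, 2n]` multiply, then
  almost surely `R(x,y) → 1` uniformly for `(log x)^4 x^(9/k) ≤ y ≤ x`; so `Q1` holds almost surely
  for `A` as soon as `k n ≥ κ log n / log log n` for some `κ > 0`.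
* For every `k` with `k i = o(i)` there are events which multiply over every finite set with at most
  `k i` elements in `[2^i, 2^(i+1))` for all `i`, while almost surely `A` misses `(n, n+h]` for
  infinitely many `n` with some `h ≥ n^(1/(4k))`; if `k i = o(i / log i)`, then `Q1` fails almost
  surely for `A`.
-/

namespace Pool.Agent.Results.MP_293bbf_nt.LimitedIndependence

open Filter MeasureTheory Topology

/-- `R(x,y)` with the primes replaced by the set `A`. -/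
noncomputable def R (A : Set ℕ) (x y : ℝ) : ℝ :=
  (({n : ℕ | n ∈ A ∧ x < n ∧ (n:ℝ) ≤ x + y}.ncard : ℕ) : ℝ) / (y / Real.log x)

/-- The assertion of `Q1` with the primes replaced by the set `A`. -/
def Q1For (A : Set ℕ) : Prop :=
  ∀ ε : ℝ, 0 < ε → ∃ N : ℝ, 1 < N ∧ ∀ x y : ℝ, N ≤ x → Real.log x ^ N ≤ y → y ≤ x →
    |R A x y - 1| ≤ ε

theorem result :
    (∀ (Ω : Type) (_ : MeasurableSpace Ω) (P : Measure Ω) (_ : IsProbabilityMeasure P)
        (E : ℕ → Set Ω), (∀ n, MeasurableSet (E n)) → ∀ k : ℕ → ℕ,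
      (∀ᶠ n : ℕ in atTop, 2 ≤ k n ∧ ∀ S : Finset ℕ, S ⊆ Finset.Ioc n (2 * n) → S.card ≤ k n →
        P.real (⋂ i ∈ S, E i) = ∏ i ∈ S, 1 / Real.log i) →
      (∀ᵐ ω ∂P, ∀ ε : ℝ, 0 < ε → ∀ᶠ x : ℝ in atTop, ∀ y : ℝ,
        (Real.log x) ^ 4 * x ^ ((9:ℝ) / (k ⌊x⌋₊ : ℝ)) ≤ y → y ≤ x →
          |R {n | ω ∈ E n} x y - 1| ≤ ε) ∧
      ((∃ κ : ℝ, 0 < κ ∧ ∀ᶠ n : ℕ in atTop, κ * Real.log n / Real.log (Real.log n) ≤ k n) →
        ∀ᵐ ω ∂P, Q1For {n | ω ∈ E n})) ∧
    (∀ k : ℕ → ℕ, (∀ i, 1 ≤ k i) → Tendsto (fun i : ℕ => (k i : ℝ) / i) atTop (𝓝 0) →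
      ∃ (Ω : Type) (_ : MeasurableSpace Ω) (P : Measure Ω) (E : ℕ → Set Ω),
        IsProbabilityMeasure P ∧ (∀ n, MeasurableSet (E n)) ∧
        (∀ S : Finset ℕ, (∀ n ∈ S, 3 ≤ n) →
          (∀ i, (S.filter (fun n => 2 ^ i ≤ n ∧ n < 2 ^ (i + 1))).card ≤ k i) →
          P.real (⋂ n ∈ S, E n) = ∏ n ∈ S, 1 / Real.log n) ∧
        (∀ᵐ ω ∂P, ∀ n₀ : ℕ, ∃ n ≥ n₀, ∃ h : ℕ,
          (n:ℝ) ^ ((1:ℝ) / (4 * (k (Nat.log 2 n) : ℝ))) ≤ h ∧ h ≤ n ∧
          ∀ j, n < j → j ≤ n + h → ω ∉ E j) ∧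
        (Tendsto (fun i : ℕ => (k i : ℝ) * Real.log i / i) atTop (𝓝 0) →
          ∀ᵐ ω ∂P, ¬ Q1For {n | ω ∈ E n})) := by
  refine ⟨?_, ?_⟩
  · intro Ω _ P _ E hE k hind
    have hA := Pool.Agent.U635.LI.partA2 P E hE k hind
    have hcn : ∀ ω : Ω, ∀ n h : ℕ, Pool.Agent.U635.LI.cn {n | ω ∈ E n} n h
        = (Pool.Agent.U635.LI.A E (Finset.Ioc n (n+h)) ω).card := by
      classical
      intro ω n h
      unfold Pool.Agent.U635.LI.cn Pool.Agent.U635.LI.A
      congr 1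
    have hreal : ∀ᵐ ω ∂P, ∀ ε > 0, ∀ᶠ x : ℝ in atTop, ∀ y : ℝ,
        (Real.log x) ^ 4 * Real.exp (9 * Real.log x / k ⌊x⌋₊) ≤ y → y ≤ x →
          |Pool.Agent.U635.LI.R {n | ω ∈ E n} x y - 1| ≤ ε := by
      filter_upwards [hA] with ω hω
      refine Pool.Agent.U635.LI.real_form _ k ?_
      intro ε hε
      filter_upwards [hω ε hε] with n hn h h1 h2
      rw [hcn]
      exact hn h h1 h2
    refine ⟨?_, ?_⟩
    · filter_upwards [hreal] with ω hω ε hε
      filter_upwards [hω ε hε, eventually_gt_atTop 0] with x hx hx0 y hy1 hy2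
      refine hx y ?_ hy2
      refine le_trans (le_of_eq ?_) hy1
      rw [Real.rpow_def_of_pos hx0]
      congr 2
      ring
    · rintro ⟨κ, hκ, hk⟩
      filter_upwards [hreal] with ω hω
      exact Pool.Agent.U635.LI.q1_of _ k hω κ hκ hk
  · intro k hk1 hk
    obtain ⟨q, hq1, hq2, hq3, hq4⟩ := Pool.Agent.U635.LI.exists_q2 k hk
    have : ∀ i, Fact (q i).Prime := fun i => ⟨hq1 i⟩
    have hg := Pool.Agent.U635.LI.gaps2 q k hk1 hq3 hq4
    refine ⟨Pool.Agent.U635.LI.X1 q k × (ℕ → ℝ), inferInstance, Pool.Agent.U635.LI.MM q k,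
      Pool.Agent.U635.LI.Ev q k, inferInstance, Pool.Agent.U635.LI.meas_Ev q k, ?_, hg, ?_⟩
    · intro S hS3 hSk
      have h := Pool.Agent.U635.LI.prod_formula q k hq2 S hS3 (fun i => by
        refine le_trans (Finset.card_le_card ?_) (hSk i)
        intro n hn
        obtain ⟨hn, hn2⟩ := Finset.mem_filter.1 hn
        have h3 := hS3 n hn
        rw [Nat.log_eq_iff (Or.inr ⟨by norm_num, by omega⟩)] at hn2
        exact Finset.mem_filter.2 ⟨hn, hn2⟩)
      unfold Measure.real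
      rw [h, ENNReal.toReal_prod]
      refine Finset.prod_congr rfl fun n hn => ?_
      apply ENNReal.toReal_ofReal
      have : (1:ℝ) ≤ n := by exact_mod_cast (by have := hS3 n hn; omega : 1 ≤ n)
      have := Real.log_nonneg this
      positivity
    · intro hk2
      filter_upwards [hg] with ω hω
      exact Pool.Agent.U635.LI.not_q1 _ k hk1 hk2 hω

end Pool.Agent.Results.MP_293bbf_nt.LimitedIndependence
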