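import Pool.Agent.U996.WA.Fin

/-!
# The mean of `R(x, y)` over arbitrary sets of terms of `⌊α n ^ c⌋`, all monotone sequences of lengths

Let `c > 0`, let `S` be any set of natural numbers.  For almost every real `α > 0`, with `x_n = ⌊α n ^ c⌋`: uniformly
in all nondecreasing sequences `y_1 ≤ ... ≤ y_N` of lengths between `1` and `N ^ B`, the normalised numbers of primes in
`(x_n, x_n + y_n]`, summed over the `n ≤ N` in `S`, are the expected ones up to `N / (log N) ^ K` for every `K`; and if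
`S` has at least `N / (log N) ^ B` elements up to `N`, then the mean of `R(x_n, y_n)` over the `n ≤ N` in `S` tends to
`1`, uniformly in all nondecreasing sequences of lengths between `1` and `A N ^ c`.
-/

set_option autoImplicit false

namespace Pool.Agent.Results.MP_293bbf_nt.MonotoneLengths

open Finset MeasureTheory Filter Topology

/-- `R(x, y) = (π(x + y) - π(x)) / (y / log x)` -/
noncomputable def R (x y : ℝ) : ℝ :=
  ((Nat.primeCounting ⌊x + y⌋₊ : ℝ) - Nat.primeCounting ⌊x⌋₊) / (y / Real.log x)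

/-- the sequence `⌊α n ^ c⌋` -/
noncomputable def sq (α c : ℝ) (n : ℕ) : ℕ := ⌊α * (n : ℝ) ^ c⌋₊

/-- the number of elements of `S` in `[1, N]` -/
noncomputable def card (S : Set ℕ) (N : ℕ) : ℕ := Set.ncard {n : ℕ | 1 ≤ n ∧ n ≤ N ∧ n ∈ S}

open Classical in
/-- the sum of `f n` over the `n ∈ S` in `[1, N]` -/
noncomputable def total (S : Set ℕ) (f : ℕ → ℝ) (N : ℕ) : ℝ :=
  ∑ n ∈ (Icc 1 N).filter (fun n => n ∈ S), f n

/-- `1 / log n` for `n ≥ 3` and `0` otherwise -/
noncomputable def rho (n : ℕ) : ℝ := if n ≤ 2 then 0 else 1 / Real.log n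

/-- the expected number of primes in `(x, x + y]` -/
noncomputable def expected (x y : ℕ) : ℝ := ∑ h ∈ Icc 1 y, rho (x + h)

open Pool.Agent.U996.WA in
lemma count_eq (x : ℕ) : ∀ y : ℕ,
    (Nat.primeCounting (x + y) : ℝ) - Nat.primeCounting x = sp x y := by
  intro y
  induction y with
  | zero => simp [sp]
  | succ y ih =>
    have h1 := Pool.Agent.U996.UW.pi_sum (x + (y + 1))
    have h2 := Pool.Agent.U996.UW.pi_sum (x + y)
    rw [← add_assoc, Finset.sum_Icc_succ_top (by omega), h2] at h1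
    unfold sp at ih ⊢
    rw [Finset.sum_Icc_succ_top (by omega), ← ih, ← add_assoc, ← h1]
    unfold pr
    ring

open Pool.Agent.U996.WA in
lemma R_eq (x y : ℕ) : R (x : ℝ) (y : ℝ) = sp x y * Real.log x / y := by
  unfold R
  rw [← Nat.cast_add, Nat.floor_natCast, Nat.floor_natCast, count_eq, div_div_eq_mul_div]

open Pool.Agent.U996.WA in
lemma total_eq (S : Set ℕ) (f : ℕ → ℝ) (N : ℕ) : total S f N = ∑ n ∈ Icc 1 N, ind S n * f n := by
  unfold total ind
  rw [Finset.sum_filter]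
  refine Finset.sum_congr rfl fun n _ => ?_
  split_ifs <;> ring

open Pool.Agent.U996.WA in
open Classical in
lemma card_eq (S : Set ℕ) (N : ℕ) : (card S N : ℝ) = ∑ n ∈ Icc 1 N, ind S n := by
  have e1 : {n : ℕ | 1 ≤ n ∧ n ≤ N ∧ n ∈ S} = (((Icc 1 N).filter fun n => n ∈ S : Finset ℕ) : Set ℕ) := by
    ext p
    simp only [Set.mem_ofPred_eq, Finset.coe_filter, Finset.mem_Icc, and_assoc]
  unfold card ind
  rw [e1, Set.ncard_coe_finset, Finset.card_filter]
  push_cast
  rfl

/-- Let `c > 0` and let `S` be any set of natural numbers. For almost every real `α > 0`, with `x_n = ⌊α n ^ c⌋`: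
(1) for all `K`, `B` and all large `N`, uniformly in all `y` that are nondecreasing on `[1, N]` with `1 ≤ y_n ≤ N ^ B`,
the sum over the `n ≤ N` in `S` of the difference between the number and the expected number of primes in
`(x_n, x_n + y_n]`, divided by `y_n`, is at most `N / (log N) ^ K` in absolute value;
(2) if for some `B` and all large `N` there are at least `N / (log N) ^ B` elements of `S` up to `N`, then the mean of
`R(x_n, y_n)` over the `n ≤ N` in `S` tends to `1`, uniformly in all `y` that are nondecreasing on `[1, N]` with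
`1 ≤ y_n ≤ A N ^ c`, for every `A`. -/
theorem result (c : ℝ) (hc : 0 < c) (S : Set ℕ) :
    ∀ᵐ α : ℝ, 0 < α →
      (∀ K B : ℕ, ∀ᶠ N : ℕ in atTop, ∀ y : ℕ → ℕ, MonotoneOn y (Set.Icc 1 N) →
        (∀ n, 1 ≤ n → n ≤ N → 1 ≤ y n ∧ y n ≤ N ^ B) →
          |total S (fun n => ((Nat.primeCounting (sq α c n + y n) : ℝ) - Nat.primeCounting (sq α c n) -
            expected (sq α c n) (y n)) / y n) N| ≤ N / Real.log N ^ K) ∧
      ((∃ B : ℕ, ∀ᶠ N : ℕ in atTop, (N : ℝ) / Real.log N ^ B ≤ card S N) →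
        ∀ A ε : ℝ, 0 < ε → ∀ᶠ N : ℕ in atTop, ∀ y : ℕ → ℕ, MonotoneOn y (Set.Icc 1 N) →
          (∀ n, 1 ≤ n → n ≤ N → 1 ≤ y n ∧ (y n : ℝ) ≤ A * (N : ℝ) ^ c) →
            |total S (fun n => R (sq α c n) (y n)) N / card S N - 1| ≤ ε) := by
  filter_upwards [Pool.Agent.U996.WA.mlaw c hc S] with α hα hα0
  have hlaw := hα hα0
  refine ⟨fun K B => ?_, ?_⟩
  · filter_upwards [hlaw K B] with N hN y hm hy
    have h1 := hN y (fun n hn => hy n (Finset.mem_Icc.1 hn).1 (Finset.mem_Icc.1 hn).2)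
      (fun n hn m hm' hnm => hm (Finset.mem_Icc.1 hn) (Finset.mem_Icc.1 hm') hnm)
    rw [total_eq]
    refine le_trans (le_of_eq ?_) h1
    congr 1
    refine Finset.sum_congr rfl fun n _ => ?_
    rw [count_eq]
    rfl
  · rintro ⟨B0, hB0⟩ A ε hε
    have hS : ∀ᶠ N : ℕ in atTop, (N : ℝ) / Real.log N ^ B0 ≤
        ∑ n ∈ Icc 1 N, Pool.Agent.U996.WA.ind S n := by
      filter_upwards [hB0] with N hN
      rwa [card_eq] at hN
    filter_upwards [Pool.Agent.U996.WA.mean c hc S α hα0 hlaw B0 hS A ε hε, hS,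
      Pool.Agent.U996.UW.nlog.eventually_ge_atTop 1, eventually_ge_atTop 1] with N hN hSN hl hN1 y hm hy
    have h1 := hN y (fun n hn => hy n (Finset.mem_Icc.1 hn).1 (Finset.mem_Icc.1 hn).2)
      (fun n hn m hm' hnm => hm (Finset.mem_Icc.1 hn) (Finset.mem_Icc.1 hm') hnm)
    have hN0 : (0 : ℝ) < N := by exact_mod_cast hN1
    have hpos : 0 < ∑ n ∈ Icc 1 N, Pool.Agent.U996.WA.ind S n :=
      lt_of_lt_of_le (by positivity) hSN
    rw [total_eq, card_eq]
    obtain ⟨s, hs⟩ : ∃ s, s = ∑ n ∈ Icc 1 N, Pool.Agent.U996.WA.ind S n := ⟨_, rfl⟩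
    rw [← hs] at h1 hpos ⊢
    have e : (∑ n ∈ Icc 1 N, Pool.Agent.U996.WA.ind S n * R (sq α c n) (y n)) / s - 1 =
        (∑ n ∈ Icc 1 N, Pool.Agent.U996.WA.ind S n *
          (Pool.Agent.U996.WA.sp ⌊α * (n : ℝ) ^ c⌋₊ (y n) *
            Real.log (⌊α * (n : ℝ) ^ c⌋₊ : ℕ) / y n - 1)) / s := by
      have e2 : ∀ n : ℕ, Pool.Agent.U996.WA.ind S n *
          (Pool.Agent.U996.WA.sp ⌊α * (n : ℝ) ^ c⌋₊ (y n) *
            Real.log (⌊α * (n : ℝ) ^ c⌋₊ : ℕ) / y n - 1) =
          Pool.Agent.U996.WA.ind S n * R (sq α c n) (y n) - Pool.Agent.U996.WA.ind S n := by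
        intro n
        rw [R_eq]
        unfold sq
        ring
      rw [Finset.sum_congr rfl fun n _ => e2 n, Finset.sum_sub_distrib, ← hs, sub_div, div_self hpos.ne']
    rw [e, abs_div, abs_of_pos hpos, div_le_iff₀ hpos]
    exact h1

end Pool.Agent.Results.MP_293bbf_nt.MonotoneLengths
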