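import Pool.Agent.U265.ME.CoreE
import Pool.Agent.U265.MM.Fin
import Pool.Agent.N610.MS.BON
import Pool.Agent.N610.MS.LEG
import Pool.Agent.N610.MS.CNT
import Pool.Agent.N610.MS.ROWS
import Pool.Agent.N610.MS.MAIN

set_option autoImplicit false

/-!
# Maier's irregularities at one scale only, along the sequences `⌊n ^ c⌋`

The irregularities of the primes in the intervals `(x, x + y]`, `y` between two powers of `log x`, which
contradict the uniform asymptotics of the question with a fixed exponent, are present along the sequence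
`x = ⌊n ^ c⌋` for all exponents `c > 1` outside an exceptional set `E`, the bounded parts of which have
Hausdorff dimension less than one: at one scale only, with the sign one likes, and without
asymptotic linear relations or inequalities between the scales. The exceptional set does not depend
on the scales.

Proof. Starting files used: the weights on the integers in `(X, 3 X)` with separation of scales
(`Pool/Agent/N610/MS`), and the sampling law along `⌊n ^ c⌋` for polynomially many sets in each dyadic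
block (`Pool/Agent/Y854/PS/Fam.lean`). The sets must not depend on the exponent `c`, but the density
`(1 / c) t ^ (1 / c - 1)` of the sequence does: the law is proved for all initial parts of the blocks and
the density is removed by partial summation (`Pool/Agent/U265/ME`); the uniform law on the grid of scales,
the passage to all scales and the countable family of exponents `a` are as for the sequences
`⌊α n ^ c⌋`, almost all `α` (`Pool/Agent/U265/MM`, hand-in MP_b09185_nt.MetricMaier).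
-/

namespace Pool.Agent.Results.MP_293bbf_nt.SeparationAlongPowers

open Finset Filter MeasureTheory

/-- `R(x, y) = (π(x + y) - π(x)) / (y / log x)` -/
noncomputable def R (x y : ℝ) : ℝ :=
  ((Nat.primeCounting ⌊x + y⌋₊ : ℝ) - Nat.primeCounting ⌊x⌋₊) / (y / Real.log x)

/-- the members of the sequence `⌊n ^ c⌋` -/
noncomputable def sq (c : ℝ) (n : ℕ) : ℕ := ⌊(n : ℝ) ^ c⌋₊

/-- the mean value of `R(⌊n ^ c⌋, y)` over `n ∈ S`, with the weights `w n` -/
noncomputable def mean (c : ℝ) (S : Finset ℕ) (w : ℕ → ℝ) (y : ℝ) : ℝ := ∑ n ∈ S, w n * R (sq c n) y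

/-- nonnegative weights `w n` with sum `1` for `n ∈ S`, each at most `X ^ (ε - 1 / c)`, and
`X / 2 < ⌊n ^ c⌋ ≤ 3 X` for `n ∈ S` -/
def Weights (c X ε : ℝ) (S : Finset ℕ) (w : ℕ → ℝ) : Prop :=
  (∀ n ∈ S, X / 2 < sq c n ∧ (sq c n : ℝ) ≤ 3 * X) ∧
    (∀ n ∈ S, 0 ≤ w n ∧ w n ≤ X ^ (ε - 1 / c)) ∧ ∑ n ∈ S, w n = 1

/-- a set whose bounded parts have Hausdorff dimension less than one -/
theorem glue (Ef : ℕ → Set ℝ) (h : ∀ k, dimH (Ef k) < 1) (C : ℝ) :
    dimH ({c : ℝ | c ∈ Ef ⌈c⌉₊} ∩ Set.Iic C) < 1 := by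
  classical
  have hsub : {c : ℝ | c ∈ Ef ⌈c⌉₊} ∩ Set.Iic C ⊆ ⋃ k ∈ (range (⌈C⌉₊ + 1) : Set ℕ), Ef k := by
    rintro c ⟨h1, h2⟩
    simp only [Set.mem_iUnion]
    refine ⟨⌈c⌉₊, ?_, h1⟩
    rw [Finset.mem_coe, mem_range]
    have h3 : c ≤ C := h2
    have := Nat.ceil_le_ceil h3
    omega
  refine lt_of_le_of_lt (dimH_mono hsub) ?_
  rw [dimH_bUnion (Finset.countable_toSet _)]
  have e : (⨆ k ∈ (range (⌈C⌉₊ + 1) : Set ℕ), dimH (Ef k)) = (range (⌈C⌉₊ + 1)).sup (fun k => dimH (Ef k)) := by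
    rw [Finset.sup_eq_iSup]
    rfl
  rw [e, Finset.sup_lt_iff (by simp)]
  intro k _
  exact h k

open Classical in
/-- There is a set `E` of real numbers, every bounded part of which has Hausdorff dimension less than
`1`, such that for all `c > 1` outside `E`, with `x_n = ⌊n ^ c⌋`:
(1) For all `a, η > 0` there is `κ > 0` such that for all `C > 0` and both signs `σ` there is `δ > 0`
such that for all `ε > 0` and all large `X` there are weights as above for which the mean of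
`σ (R(x_n, y) - 1)` is at least `δ` for `(log X) ^ a ≤ y ≤ (log X) ^ (a + κ)`, at least `- δ / C` for
`(log X) ^ a ≤ y ≤ X ^ (4 / 5)`, and its absolute value is at most `δ / C` for
`(log X) ^ (a + η) ≤ y ≤ X ^ (4 / 5)`.
(2) Let `μ` be a finite measure on `[a, A]`, `a > 0`, and `f` a bounded measurable function,
nonnegative on `[a, a + η]` for some `η > 0`, the integral of which over `[a, a + κ]` is positive
for all `κ > 0`. Then there is `δ > 0` such that for every `ε > 0` and all large `N` at least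
`N ^ (1 - ε)` of the `n ≤ N` satisfy `∫ f(t) (R(x_n, (log x_n) ^ t) - 1) dμ(t) ≥ δ`, and at least
`N ^ (1 - ε)` of them satisfy `∫ f(t) (R(x_n, (log x_n) ^ t) - 1) dμ(t) ≤ - δ`. For the point mass at
`a` and `f = 1` this is Maier's theorem along `⌊n ^ c⌋`. -/
theorem result : ∃ E : Set ℝ, (∀ C : ℝ, dimH (E ∩ Set.Iic C) < 1) ∧ ∀ c : ℝ, 1 < c → c ∉ E →
    (∀ a η : ℝ, 0 < a → 0 < η → ∃ κ : ℝ, 0 < κ ∧
      ∀ (C σ : ℝ), 0 < C → (σ = 1 ∨ σ = -1) → ∃ δ : ℝ, 0 < δ ∧ ∀ ε : ℝ, 0 < ε →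
        ∀ᶠ X : ℝ in atTop, ∃ (S : Finset ℕ) (w : ℕ → ℝ), Weights c X ε S w ∧
          (∀ y : ℝ, Real.log X ^ a ≤ y → y ≤ Real.log X ^ (a + κ) →
            δ ≤ σ * (mean c S w y - 1)) ∧
          (∀ y : ℝ, Real.log X ^ a ≤ y → y ≤ X ^ (4 / 5 : ℝ) →
            -(δ / C) ≤ σ * (mean c S w y - 1)) ∧
          (∀ y : ℝ, Real.log X ^ (a + η) ≤ y → y ≤ X ^ (4 / 5 : ℝ) →
            |mean c S w y - 1| ≤ δ / C)) ∧
    ∀ (μ : Measure ℝ), IsFiniteMeasure μ → ∀ (f : ℝ → ℝ) (B a η A : ℝ),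
      Measurable f → (∀ t, |f t| ≤ B) → 0 < a → 0 < η → μ (Set.Iio a) = 0 → μ (Set.Ioi A) = 0 →
      (∀ t, a ≤ t → t ≤ a + η → 0 ≤ f t) →
      (∀ κ : ℝ, 0 < κ → 0 < ∫ t in Set.Icc a (a + κ), f t ∂μ) →
      ∃ δ : ℝ, 0 < δ ∧ ∀ ε : ℝ, 0 < ε → ∀ᶠ N : ℕ in atTop,
        (N : ℝ) ^ (1 - ε) ≤ (((Icc 1 N).filter (fun n =>
          (∫ t, f t ∂μ) + δ ≤ ∫ t, f t * R (sq c n) (Real.log (sq c n) ^ t) ∂μ)).card : ℝ) ∧
        (N : ℝ) ^ (1 - ε) ≤ (((Icc 1 N).filter (fun n =>
          ∫ t, f t * R (sq c n) (Real.log (sq c n) ^ t) ∂μ ≤ (∫ t, f t ∂μ) - δ)).card : ℝ) := by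
  choose Ef hEf hlaw using fun k : ℕ => Pool.Agent.U265.ME.all_exponents
    (Pool.Agent.N610.MS.t_MAIN (Pool.Agent.N610.MS.t_CNT Pool.Agent.N610.MS.t_BON
      (Pool.Agent.N610.MS.t_LEG Pool.Agent.N610.MS.t_BON)) Pool.Agent.N610.MS.t_ROWS) (max 1 (k : ℝ))
      (le_max_left _ _)
  refine ⟨{c : ℝ | c ∈ Ef ⌈c⌉₊}, glue Ef hEf, fun c hc hcE => ?_⟩
  have hS : Pool.Agent.U265.MM.S_SEQ 1 c := by
    refine hlaw ⌈c⌉₊ c hc ?_ hcE
    exact (Nat.le_ceil c).trans (le_max_right _ _)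
  have hsq : ∀ n, Pool.Agent.Y854.PS.ms 1 c n = sq c n := by
    intro n
    unfold Pool.Agent.Y854.PS.ms Pool.Agent.Y854.PS.xs sq
    rw [one_mul]
  have hmean : ∀ (S : Finset ℕ) (w : ℕ → ℝ) (y : ℝ),
      Pool.Agent.U265.MM.mean (Pool.Agent.Y854.PS.ms 1 c) S w y = mean c S w y := by
    intro S w y
    unfold Pool.Agent.U265.MM.mean mean
    simp only [hsq]
    rfl
  refine ⟨?_, ?_⟩
  · have h := Pool.Agent.U265.MM.part1 one_pos hc hS
    simp only [hsq, hmean] at h
    exact h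
  · have h := Pool.Agent.U265.MM.part2 one_pos hc hS
    simp only [hsq] at h
    exact h

end Pool.Agent.Results.MP_293bbf_nt.SeparationAlongPowers
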