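import Pool.Agent.U28.SF.SF23
import Pool.Agent.Q278.KT.Fin

set_option autoImplicit false

/-!
# Both bounds for the primes at ALL scales, in EVERY window `(u, u + N]` with `N ≥ u ^ (0.615 - δ)`

In every window `(u, u + N]`, `u ^ (0.615 - δ) ≤ N ≤ u`, a positive proportion of the integers `x` are such that ALL the
intervals `(x, x + y]` with `K log x ≤ y ≤ N` contain at least `κ y / log x` and at most `K y / log x` primes. For every set
`U` of primes of the window of positive relative density the lower bound holds (at the same points as the upper bound) for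
the elements of `U`, and even for the elements of `U` which are the first of `m` terms of an arithmetic progression in `U`
with difference at most a power of `log x`. The same holds, with few exceptions, in the disjoint windows of length
`X ^ (θ - δ)` of `[X, 3 X]`, for three pairs (length, number of exceptions).

Proof: the number of separated intervals with few primes (`Pool.Agent.Q278.KT`, starting library), the energy of dense sets
of primes at their mean spacing and a covering argument (`Pool.Agent.U28.SF`), a maximal inequality for the upper bound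
(`Pool.Agent.U28.SF.max_few`), and Szemerédi's theorem for sifted sets of the starting library.
-/

namespace Pool.Agent.Results.MP_293bbf_nt.TwoSidedInEveryWindow

open Finset Filter Topology

/-- the primes of `(x, x + y]` -/
def primes (x y : ℕ) : Finset ℕ := (Ioc x (x + y)).filter Nat.Prime

/-- `q` is the first of `m` terms of an arithmetic progression in `U` with difference between `1` and `D` -/
def FirstTerm (m : ℕ) (D : ℝ) (U : Finset ℕ) (q : ℕ) : Prop :=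
  ∃ d : ℕ, 1 ≤ d ∧ (d : ℝ) ≤ D ∧ ∀ j < m, q + j * d ∈ U

open Classical in
/-- For every set `U` of primes of `(u, u + N]` of relative density at least `ρ`, at least `κ N` of the integers
`u ≤ x ≤ u + N` are such that for ALL natural numbers `y` with `K log x ≤ y ≤ N` the interval `(x, x + y]` contains at least
`κ y / log x` elements of `U` which are first terms of `m`-term progressions in `U` with difference at most `(log x) ^ B`,
and at most `K y / log x` primes. -/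
def Regular (κ K ρ : ℝ) (m B u N : ℕ) : Prop :=
  ∀ U ⊆ primes u N, ρ * (primes u N).card ≤ U.card →
    κ * N ≤ (((Icc u (u + N)).filter (fun x : ℕ => ∀ y : ℕ, K * Real.log x ≤ y → y ≤ N →
      κ * (y / Real.log x) ≤ (((Ioc x (x + y)).filter (FirstTerm m (Real.log x ^ B) U)).card : ℝ) ∧
      ((primes x y).card : ℝ) ≤ K * (y / Real.log x))).card : ℝ)

/-- (1) There is `δ > 0` such that for all `m` and `ρ > 0` there are `κ, K > 0`, `B` and `u₀` such that `Regular κ K ρ m B u N`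
for all `u ≥ u₀` and ALL `N` with `u ^ (0.615 - δ) ≤ N ≤ u`. (2) Let `(θ, e)` be one of three pairs. There is `δ > 0` such
that for all `m` and `ρ > 0` there are `κ, K > 0`, `B` and `X₀` such that for all `X ≥ X₀` and `X ^ (θ - δ) ≤ N ≤ X ^ 0.9` every
family of pairwise disjoint windows `(u, u + N]`, `X ≤ u ≤ 2 X`, which are not `Regular κ K ρ m B`, has at most
`X ^ (e - δ)` members. -/
theorem result :
    (∃ δ : ℝ, 0 < δ ∧ ∀ (m : ℕ) (ρ : ℝ), 0 < ρ → ∃ κ K : ℝ, 0 < κ ∧ 0 < K ∧ ∃ B u₀ : ℕ, ∀ u N : ℕ, u₀ ≤ u →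
      (u : ℝ) ^ (0.615 - δ) ≤ N → N ≤ u → Regular κ K ρ m B u N) ∧
    ∀ θ e : ℝ, (θ = 1 / 2 ∧ e = 0.306) ∨ (θ = 0.57 ∧ e = 0.045) ∨ (θ = 3 / 16 ∧ e = 13 / 16) →
      ∃ δ : ℝ, 0 < δ ∧ ∀ (m : ℕ) (ρ : ℝ), 0 < ρ → ∃ κ K : ℝ, 0 < κ ∧ 0 < K ∧ ∃ B X₀ : ℕ, ∀ X N : ℕ, X₀ ≤ X →
        (X : ℝ) ^ (θ - δ) ≤ N → (N : ℝ) ≤ (X : ℝ) ^ (0.9 : ℝ) →
          ∀ P : Finset ℕ, (∀ u ∈ P, X ≤ u ∧ u ≤ 2 * X ∧ ¬ Regular κ K ρ m B u N) →
            (∀ u ∈ P, ∀ u' ∈ P, u < u' → u + N ≤ u') → (P.card : ℝ) ≤ (X : ℝ) ^ (e - δ) := by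
  have tN : Tendsto (fun N : ℕ => (N : ℝ)) atTop atTop := tendsto_natCast_atTop_atTop
  constructor
  · obtain ⟨c1, δ, hc1, hδ, hδ1, hlong⟩ := Pool.Agent.U28.SF.long_primes Pool.Agent.Q278.KT.mainp_043
      (by norm_num) (by norm_num) (by norm_num) (by norm_num) (by norm_num)
    refine ⟨δ, hδ, fun m ρ hρ => ?_⟩
    obtain ⟨κ, K, hκ, hK, B, h⟩ := Pool.Agent.U28.SF.two_windows c1 hc1 m ρ hρ
    obtain ⟨N₀, hN₀⟩ := eventually_atTop.1 h
    have t1 : Tendsto (fun X : ℕ => (X : ℝ) ^ (0.1 : ℝ)) atTop atTop := (tendsto_rpow_atTop (by norm_num)).comp tN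
    obtain ⟨u₀, hu₀⟩ := eventually_atTop.1 ((hlong.and (t1.eventually_ge_atTop (N₀ : ℝ))).and (eventually_ge_atTop 1))
    refine ⟨κ, K, hκ, hK, B, u₀, fun u N hu hN1 hN2 => ?_⟩
    obtain ⟨⟨h1, h2⟩, h3⟩ := hu₀ u hu
    have hu1 : (1 : ℝ) ≤ u := by exact_mod_cast h3
    have h4 : (u : ℝ) ^ (0.1 : ℝ) ≤ N :=
      (Real.rpow_le_rpow_of_exponent_le hu1 (by linarith)).trans hN1
    have h5 : N₀ ≤ N := by exact_mod_cast h2.trans h4
    refine hN₀ N h5 u hN2 h4 (h1 N ?_ hN2)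
    refine le_trans (le_of_eq ?_) hN1
    congr 1
    norm_num
  · intro θ e hpair
    have key : ∀ {lam0 e0 : ℝ}, Pool.Agent.Q240.KS.MAINP lam0 e0 → 0 ≤ lam0 → lam0 ≤ 0.82 → e0 ≤ 1 → θ = 1 - lam0 → e = e0 →
        ∃ δ : ℝ, 0 < δ ∧ ∀ (m : ℕ) (ρ : ℝ), 0 < ρ → ∃ κ K : ℝ, 0 < κ ∧ 0 < K ∧ ∃ B X₀ : ℕ, ∀ X N : ℕ, X₀ ≤ X →
        (X : ℝ) ^ (θ - δ) ≤ N → (N : ℝ) ≤ (X : ℝ) ^ (0.9 : ℝ) →
          ∀ P : Finset ℕ, (∀ u ∈ P, X ≤ u ∧ u ≤ 2 * X ∧ ¬ Regular κ K ρ m B u N) →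
            (∀ u ∈ P, ∀ u' ∈ P, u < u' → u + N ≤ u') → (P.card : ℝ) ≤ (X : ℝ) ^ (e - δ) := by
      intro lam0 e0 hM h0 h1 h2 hθ he
      subst hθ
      subst he
      obtain ⟨c1, δ, hc1, hδ, hδ1, hpoor⟩ := Pool.Agent.U28.SF.poor_few hM h0 h1 h2
      refine ⟨δ, hδ, fun m ρ hρ => ?_⟩
      obtain ⟨κ, K, hκ, hK, B, h⟩ := Pool.Agent.U28.SF.two_windows c1 hc1 m ρ hρ
      obtain ⟨N₀, hN₀⟩ := eventually_atTop.1 h
      have t1 : Tendsto (fun X : ℕ => (X : ℝ) ^ (0.17 : ℝ)) atTop atTop := (tendsto_rpow_atTop (by norm_num)).comp tN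
      have t2 : Tendsto (fun X : ℕ => (X : ℝ) ^ (0.07 : ℝ)) atTop atTop := (tendsto_rpow_atTop (by norm_num)).comp tN
      obtain ⟨X₀, hX₀⟩ := eventually_atTop.1 (((hpoor.and (t1.eventually_ge_atTop (N₀ : ℝ))).and
        (t2.eventually_ge_atTop 2)).and (eventually_ge_atTop 1))
      refine ⟨κ, K, hκ, hK, B, X₀, fun X N hX hN1 hN2 P hP hsep => ?_⟩
      obtain ⟨⟨⟨a1, a2⟩, a3⟩, a4⟩ := hX₀ X hX
      have hX1 : (1 : ℝ) ≤ X := by exact_mod_cast a4
      have hX0 : (0 : ℝ) < X := by linarith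
      have hN3 : (X : ℝ) ^ (0.17 : ℝ) ≤ N :=
        (Real.rpow_le_rpow_of_exponent_le hX1 (by linarith)).trans hN1
      refine a1 N hN1 hN2 P (fun u hu => ?_) hsep
      obtain ⟨b1, b2, b3⟩ := hP u hu
      refine ⟨b1, b2, ?_⟩
      by_contra hcon
      rw [not_lt] at hcon
      apply b3
      have hNN₀ : N₀ ≤ N := by exact_mod_cast a2.trans hN3
      have hNu : N ≤ u := by
        have h4 : (X : ℝ) ^ (0.9 : ℝ) ≤ X := by
          calc (X : ℝ) ^ (0.9 : ℝ) ≤ (X : ℝ) ^ (1 : ℝ) := Real.rpow_le_rpow_of_exponent_le hX1 (by norm_num)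
            _ = X := Real.rpow_one _
        have h5 : N ≤ X := by exact_mod_cast hN2.trans h4
        exact h5.trans b1
      have hu01 : (u : ℝ) ^ (0.1 : ℝ) ≤ N := by
        have b2r : (u : ℝ) ≤ 2 * X := by exact_mod_cast b2
        calc (u : ℝ) ^ (0.1 : ℝ) ≤ (2 * (X : ℝ)) ^ (0.1 : ℝ) := Real.rpow_le_rpow (Nat.cast_nonneg _) b2r (by norm_num)
          _ = (2 : ℝ) ^ (0.1 : ℝ) * (X : ℝ) ^ (0.1 : ℝ) := Real.mul_rpow (by norm_num) hX0.le
          _ ≤ 2 * (X : ℝ) ^ (0.1 : ℝ) := by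
              apply mul_le_mul_of_nonneg_right _ (by positivity)
              calc (2 : ℝ) ^ (0.1 : ℝ) ≤ (2 : ℝ) ^ (1 : ℝ) := Real.rpow_le_rpow_of_exponent_le (by norm_num) (by norm_num)
                _ = 2 := Real.rpow_one _
          _ ≤ (X : ℝ) ^ (0.07 : ℝ) * (X : ℝ) ^ (0.1 : ℝ) := by gcongr
          _ = (X : ℝ) ^ (0.17 : ℝ) := by
              rw [← Real.rpow_add hX0]
              norm_num
          _ ≤ N := hN3
      exact hN₀ N hNN₀ u hNu hu01 hcon
    rcases hpair with ⟨h1, h2⟩ | ⟨h1, h2⟩ | ⟨h1, h2⟩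
    · exact key Pool.Agent.Q278.KT.mainp_half (by norm_num) (by norm_num) (by norm_num) (by rw [h1]; norm_num) h2
    · exact key Pool.Agent.Q278.KT.mainp_043 (by norm_num) (by norm_num) (by norm_num) (by rw [h1]; norm_num) h2
    · exact key Pool.Agent.Q278.KT.mainp_1316 (by norm_num) (by norm_num) (by norm_num) (by rw [h1]; norm_num) h2

end Pool.Agent.Results.MP_293bbf_nt.TwoSidedInEveryWindow
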