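import Mathlib
import Pool.Agent.U462.Uni.Maier
import Pool.Agent.U462.Gap.Fin

set_option autoImplicit false

/-!
# Uniform asymptotics in short intervals, and Maier's phenomenon, in every sequential random model

A random set is built step by step, with arbitrary dependence; the conditional probability of `n + 1`, given
the first `n` steps, is asymptotic to `∏_{p ≤ T} (1 - 1/p)⁻¹ / log n`, `T = T(n + 1)`, if `n + 1` has no prime
factor up to `T(n + 1)`, and it is `0` otherwise (Cramér's model: `T = 1`; Granville's: `T` about `log n`). The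
nondecreasing function `T` is smaller than every power of `n`. With `R(x, y)` as in the question, for the random
set in the place of the primes, we prove:

* a uniform law `|R(x, y) - 1| ≤ ε` for all `K log² x ≤ y ≤ x` with `y ≥ (T(4 x) + 2) ^ u`, where `K` and `u` depend
  only on `ε`;
* hence the statement Q1 holds almost surely if `T` is at most a power of `log n`;
* an exact dichotomy for Maier's phenomenon: `R(x, (log x) ^ a) → 1` almost surely, for every `a > 2`, if
  `T(n) = (log n) ^ o(1)`; and in all other cases, almost surely, for every `a > 2`,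
  `liminf R(x, (log x) ^ a) < 1 < limsup R(x, (log x) ^ a)`.

Proof: exponential moments of the number of elements of a window, conditionally on the past (a law of large
numbers in all windows at once); the fundamental lemma of the sieve (library `H154R3`, through `U839.Sv.Count`);
for the last part the windows after the multiples of the product of a small set of primes, chosen as in the
library `N610.MS` (separation of scales in Maier's theorem), for both signs.
-/

open MeasureTheory Filter Topology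

namespace Pool.Agent.Results.MP_293bbf_nt.UniformityInRandomModels

/-- `R(x, y)` for the set `S`: the number of elements of `S` in `(x, x + y]`, divided by `y / log x` -/
noncomputable def R (S : Set ℕ) (x y : ℝ) : ℝ :=
  ({n : ℕ | n ∈ S ∧ x < n ∧ (n : ℝ) ≤ x + y}.ncard : ℝ) / (y / Real.log x)

/-- the statement Q1 for the set `S` in the place of the set of the primes -/
def Q1 (S : Set ℕ) : Prop :=
  ∀ ε : ℝ, 0 < ε → ∃ N : ℝ, 1 < N ∧ ∀ x : ℝ, N ≤ x → ∀ y : ℝ, Real.log x ^ N ≤ y → y ≤ x → |R S x y - 1| ≤ ε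

/-- A sequential model with profile `a`: the set of the `n` with `ω ∈ A n` is adapted to the filtration, and
almost surely the conditional probability of `n + 1`, given the first `n` steps, is asymptotic to
`a (n + 1)` (in particular it is `0` for large `n` if `a (n + 1) = 0`). -/
structure IsModel {Ω : Type} {m0 : MeasurableSpace Ω} (μ : Measure Ω) (ℱ : Filtration ℕ m0)
    (A : ℕ → Set Ω) (a : ℕ → ℝ) : Prop where
  adapted : ∀ n, MeasurableSet[ℱ n] (A n)
  law : ∀ᵐ ω ∂μ, ∀ ε : ℝ, 0 < ε → ∀ᶠ n : ℕ in atTop,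
    |(μ[(A (n + 1)).indicator (fun _ => (1 : ℝ)) | ℱ n]) ω - a (n + 1)| ≤ ε * a (n + 1)

open Classical in
/-- the profile of the model with sieve limit `T`: `∏_{p ≤ T(n)} (1 - 1/p)⁻¹ / log n` if `n` has no prime
factor `p ≤ T(n)`, and `0` otherwise -/
noncomputable def sieveProfile (T : ℕ → ℕ) (n : ℕ) : ℝ :=
  (if ∀ p, p.Prime → p ≤ T n → ¬ p ∣ n then
    ∏ p ∈ (Finset.Icc 1 (T n)).filter Nat.Prime, (1 - 1 / (p : ℝ))⁻¹ else 0) / Real.log n

theorem toModel {Ω : Type} {m0 : MeasurableSpace Ω} {μ : Measure Ω} {ℱ : Filtration ℕ m0}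
    {A : ℕ → Set Ω} {a : ℕ → ℝ} (h : IsModel μ ℱ A a) : Pool.Agent.U462.Gap.Model μ ℱ A a :=
  ⟨h.adapted, h.law⟩

/-- **(1)** For every `ε > 0` there are `u` and `K` such that for every nondecreasing `T`, smaller than every
power of `n`, and every model with the profile `sieveProfile T`, almost surely `|R(x, y) - 1| ≤ ε` for all
large `x` and all `y` with `K log² x ≤ y ≤ x` and `(T(4 x) + 2) ^ u ≤ y`.
**(2)** Let `T` be nondecreasing and smaller than every power of `n`, and consider any model with the profile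
`sieveProfile T`. (a) If `T(n) ≤ (log n) ^ κ` for large `n`, then almost surely Q1 holds. (b) If `T` is smaller
than every power of `log n`, then almost surely `R(x, (log x) ^ a) → 1` for all `a > 2`. (c) If not, thus if
`T(n) ≥ (log n) ^ θ` for some `θ > 0` and infinitely many `n`, then almost surely for all `a > 2` there is `δ > 0` with
`R(x, (log x) ^ a) ≤ 1 - δ` for arbitrarily large `x`, and `R(x, (log x) ^ a) ≥ 1 + δ` for arbitrarily large `x`.
**(3)** Independent events with probabilities asymptotic to `a n` form a model with the profile `a`. -/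
theorem result :
    (∀ ε : ℝ, 0 < ε → ∃ (u : ℕ) (K : ℝ), 1 ≤ K ∧
      ∀ (Ω : Type) (m0 : MeasurableSpace Ω) (μ : Measure Ω) (_ : IsProbabilityMeasure μ)
        (ℱ : Filtration ℕ m0) (A : ℕ → Set Ω) (T : ℕ → ℕ), Monotone T →
        (∀ ε : ℝ, 0 < ε → ∀ᶠ n : ℕ in atTop, (T n : ℝ) ≤ (n : ℝ) ^ ε) → IsModel μ ℱ A (sieveProfile T) →
        ∀ᵐ ω ∂μ, ∀ᶠ x : ℝ in atTop, ∀ y : ℝ, K * Real.log x ^ 2 ≤ y → y ≤ x →
          ((T ⌊4 * x⌋₊ : ℝ) + 2) ^ u ≤ y → |R {n | ω ∈ A n} x y - 1| ≤ ε) ∧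
    (∀ (Ω : Type) (m0 : MeasurableSpace Ω) (μ : Measure Ω) (_ : IsProbabilityMeasure μ)
      (ℱ : Filtration ℕ m0) (A : ℕ → Set Ω) (T : ℕ → ℕ), Monotone T →
      (∀ ε : ℝ, 0 < ε → ∀ᶠ n : ℕ in atTop, (T n : ℝ) ≤ (n : ℝ) ^ ε) → IsModel μ ℱ A (sieveProfile T) →
      (∀ κ : ℝ, 0 < κ → (∀ᶠ n : ℕ in atTop, (T n : ℝ) ≤ Real.log n ^ κ) → ∀ᵐ ω ∂μ, Q1 {n | ω ∈ A n}) ∧
      ((∀ κ : ℝ, 0 < κ → ∀ᶠ n : ℕ in atTop, (T n : ℝ) ≤ Real.log n ^ κ) →
        ∀ᵐ ω ∂μ, ∀ a : ℝ, 2 < a → Tendsto (fun x : ℝ => R {n | ω ∈ A n} x (Real.log x ^ a)) atTop (𝓝 1)) ∧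
      (∀ θ : ℝ, 0 < θ → (∃ᶠ n : ℕ in atTop, Real.log n ^ θ ≤ T n) →
        ∀ᵐ ω ∂μ, ∀ a : ℝ, 2 < a → ∃ δ : ℝ, 0 < δ ∧
          (∃ᶠ x : ℝ in atTop, R {n | ω ∈ A n} x (Real.log x ^ a) ≤ 1 - δ) ∧
          (∃ᶠ x : ℝ in atTop, 1 + δ ≤ R {n | ω ∈ A n} x (Real.log x ^ a)))) ∧
    (∀ (Ω : Type) (m0 : MeasurableSpace Ω) (μ : Measure Ω) (_ : IsProbabilityMeasure μ)
      (A : ℕ → Set Ω) (hm : ∀ n, MeasurableSet (A n)) (a : ℕ → ℝ), ProbabilityTheory.iIndepSet A μ →
      (∀ ε : ℝ, 0 < ε → ∀ᶠ n : ℕ in atTop, |μ.real (A n) - a n| ≤ ε * a n) →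
      IsModel μ (filtrationOfSet hm) A a) := by
  refine ⟨?_, ?_, ?_⟩
  · intro ε hε
    obtain ⟨u, K, hK, H⟩ := Pool.Agent.U462.Uni.uniR ε hε
    exact ⟨u, K, hK, fun Ω m0 μ i ℱ A T hT hTs hA => H Ω m0 μ i ℱ A T (toModel hA) hT hTs⟩
  · intro Ω m0 μ _ ℱ A T hT hTs hA
    have hM : Pool.Agent.U462.Gap.Model μ ℱ A (Pool.Agent.U462.Gap.aT T) := toModel hA
    refine ⟨fun κ hκ hTk => ?_, fun hTk => ?_, fun θ hθ hf => Pool.Agent.U462.Uni.maier hM hT hTs hθ hf⟩
    · filter_upwards [Pool.Agent.U462.Uni.ul_ae hM hT hTs] with ω hω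
      exact Pool.Agent.U462.Uni.q1_of hω hκ hTk
    · filter_upwards [Pool.Agent.U462.Uni.ul_ae hM hT hTs] with ω hω a ha
      exact Pool.Agent.U462.Uni.tend_of hω hTk ha
  · intro Ω m0 μ _ A hm a hi hp
    have h := Pool.Agent.U462.Gap.indep_model hm hi hp
    exact ⟨h.adapted, h.law⟩

end Pool.Agent.Results.MP_293bbf_nt.UniformityInRandomModels
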